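import Pool.Agent.R626.IOE

/-!
# `IOE(2^(2^n))` and `IOE(2^(2^(n^d)))` are Muchnik equivalent

Let `g ∈ IOE(2^(2^n))`. Cut the arguments `k` into the windows `[2^j, 2^(j+1))` and the arguments
`m` into windows `W_j` of fewer than `(2^j)^T` elements, such that `g m`, `m ∈ W_j`, is large enough
to code a `T`-tuple of vectors, one entry for each `k` in the `j`-th window. If no function
computable from `g` were in `IOE(2^(2^(n^d)))`, one finds computable functions `r_1, ..., r_T` such
that at most `|W_j| / (2^j)^s` of the values `g m`, `m ∈ W_j`, code a tuple that begins with the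
restrictions of `r_1, ..., r_s`: in the step one lists the at most `2^j` vectors that are heavy as
the next entry and uses the `i`-th of them as the guess for the `i`-th argument `k` of the window.
For `s = T` this contradicts `g ∈ IOE(2^(2^n))`.
-/

set_option autoImplicit false

namespace Pool.Agent.Results.MP_2c929a_lc.PolynomialExponents

open Encodable Filter Pool.Agent.R626 Pool.Agent.R626.IOE

/-- Muchnik reducibility `B ≤_W C`: every member of `C` computes a member of `B`. -/
def MuchnikLe (B C : Set (ℕ → ℕ)) : Prop :=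
  ∀ g ∈ C, ∃ f ∈ B, TuringReducible (f : ℕ →. ℕ) (g : ℕ →. ℕ)

theorem turing_of_compIn {f g : ℕ → ℕ} (h : CompIn {(g : ℕ →. ℕ)} f) :
    TuringReducible (f : ℕ →. ℕ) (g : ℕ →. ℕ) := RecursiveIn.iff_nat.2 h

theorem pow_prim : Primrec₂ (fun a n : ℕ => a ^ n) := by
  have h : Primrec (fun p : ℕ × ℕ => p.1 ^ p.2) := by
    have := Primrec.nat_rec' (f := fun p : ℕ × ℕ => p.2) (g := fun _ => 1)
      (h := fun p q => q.2 * p.1) Primrec.snd (Primrec.const 1)
      (Primrec.nat_mul.comp (Primrec.snd.comp Primrec.snd) (Primrec.fst.comp Primrec.fst))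
    refine this.of_eq fun p => ?_
    obtain ⟨a, n⟩ := p
    simp only
    induction n with
    | zero => rfl
    | succ n ih => rw [pow_succ, ← ih]
  exact h

theorem target_computable (d : ℕ) : Computable (fun n : ℕ => 2 ^ 2 ^ n ^ d) := by
  have : Primrec (fun n : ℕ => 2 ^ 2 ^ n ^ d) :=
    pow_prim.comp (Primrec.const 2) (pow_prim.comp (Primrec.const 2)
      (pow_prim.comp Primrec.id (Primrec.const d)))
  exact this.to_comp

theorem growth {d : ℕ} (hd : 2 ≤ d) (a : ℕ) : ∀ᶠ n in atTop, 2 ^ a ^ n < 2 ^ 2 ^ n ^ d := by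
  filter_upwards [eventually_gt_atTop a] with n hn
  refine Nat.pow_lt_pow_right (by norm_num) ?_
  have h1 : a ^ n ≤ (2 ^ a) ^ n := Nat.pow_le_pow_left (Nat.lt_two_pow_self (n := a)).le n
  have h2 : (2 ^ a) ^ n = 2 ^ (a * n) := by rw [pow_mul]
  have h3 : a * n < n ^ 2 := by nlinarith
  have h4 : n ^ 2 ≤ n ^ d := Nat.pow_le_pow_right (by omega) hd
  calc a ^ n ≤ 2 ^ (a * n) := by rw [← h2]; exact h1
    _ < 2 ^ n ^ d := Nat.pow_lt_pow_right (by norm_num) (by omega)

theorem two_two_sq (x : ℕ) : (2 ^ 2 ^ x) ^ 2 = 2 ^ 2 ^ (x + 1) := by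
  rw [← pow_mul, ← pow_succ]

theorem pair_bound {a b x : ℕ} (ha : a < 2 ^ 2 ^ x) (hb : b < 2 ^ 2 ^ x) :
    Nat.pair a b < 2 ^ 2 ^ (x + 1) := by
  have h1 := Nat.pair_lt_max_add_one_sq a b
  have h2 : max a b + 1 ≤ 2 ^ 2 ^ x := by
    have := max_lt ha hb
    omega
  calc Nat.pair a b < (max a b + 1) ^ 2 := h1
    _ ≤ (2 ^ 2 ^ x) ^ 2 := Nat.pow_le_pow_left h2 2
    _ = _ := two_two_sq x

theorem two_two_mono {x y : ℕ} (h : x ≤ y) : 2 ^ 2 ^ x ≤ 2 ^ 2 ^ y :=
  Nat.pow_le_pow_right (by norm_num) (Nat.pow_le_pow_right (by norm_num) h)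

theorem two_two_strict {x y : ℕ} (h : x < y) : 2 ^ 2 ^ x < 2 ^ 2 ^ y :=
  Nat.pow_lt_pow_right (by norm_num) (Nat.pow_lt_pow_right (by norm_num) h)

theorem encode_bound {x : ℕ} (l : List ℕ) (hl : ∀ a ∈ l, a < 2 ^ 2 ^ x) :
    encode l < 2 ^ 2 ^ (x + 2 * l.length) := by
  induction l with
  | nil => simp
  | cons a l ih =>
    have h1 := ih fun b hb => hl b (List.mem_cons_of_mem _ hb)
    have h2 : a < 2 ^ 2 ^ (x + 2 * l.length) :=
      lt_of_lt_of_le (hl a List.mem_cons_self) (two_two_mono (by omega))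
    have h3 := pair_bound h2 h1
    rw [encode_list_cons, List.length_cons]
    have h4 : 2 ^ 2 ^ (x + 2 * l.length + 1) < 2 ^ 2 ^ (x + 2 * (l.length + 1)) :=
      two_two_strict (by omega)
    simp only [encode_nat]
    omega

theorem drop_map (r : ℕ → ℕ) (j : ℕ) :
    ((List.range (2 ^ (j + 1))).map r).drop (2 ^ j) =
      (List.range (2 ^ j)).map fun i => r (2 ^ j + i) := by
  refine List.ext_getElem ?_ fun n h1 h2 => ?_
  · simp [pow_succ]; omega
  · simp

theorem vec_computable {r : ℕ → ℕ} (hr : Computable r) :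
    Computable (fun j => encode ((List.range (2 ^ j)).map fun i => r (2 ^ j + i))) := by
  rw [← computable_iff]
  have h1 : CompIn ∅ (fun j => encode ((List.range (2 ^ (j + 1))).map r)) :=
    (CompIn.mapRange (CompIn.of_comp hr)).comp
      (CompIn.of_prim (pow_two_prim.comp Primrec.succ))
  have h2 : Primrec₂ (fun (l n : ℕ) => encode (((decode (α := List ℕ) l).getD []).drop n)) :=
    Primrec.encode.comp (Primrec.list_drop.comp Primrec.snd
      (Primrec.option_getD.comp (Primrec.decode.comp Primrec.fst) (Primrec.const [])))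
  refine (CompIn.prim₂ h2 h1 (CompIn.of_prim pow_two_prim)).of_eq fun j => ?_
  simp only [encodek, Option.getD_some, drop_map]

theorem main {d : ℕ} (hd : 1 ≤ d) {g : ℕ → ℕ} (hg : g ∈ IOE fun n => 2 ^ 2 ^ n) :
    ∃ ψ, CompIn {(g : ℕ →. ℕ)} ψ ∧ ψ ∈ IOE fun n => 2 ^ 2 ^ n ^ d := by
  classical
  by_contra hno
  set T : ℕ := 5 * d + 1 with hT
  let P : ℕ → ℕ → ℕ := fun s x => (fun y => (Nat.unpair y).1)^[T - s] x
  have hPstep : ∀ s, s < T → ∀ x, (Nat.unpair (P (s + 1) x)).1 = P s x := by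
    intro s hs x
    simp only [P]
    rw [show T - s = (T - (s + 1)) + 1 by omega, Function.iterate_succ_apply']
  have hPT : ∀ x, P T x = x := by intro x; simp [P]
  have hPprim : ∀ s, Primrec (P s) := by
    intro s
    exact Primrec.nat_iterate (Primrec.const _) Primrec.id
      ((Primrec.fst.comp (Primrec.unpair.comp Primrec.snd)))
  let J : ℕ → ℕ := fun m => Nat.log 2 m / d - 3
  let N : ℕ → ℕ := fun j => 2 ^ ((j + 4) * d)
  have hJ : Computable J := (Primrec.nat_sub.comp (Primrec.nat_div.comp log_prim (Primrec.const d))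
    (Primrec.const 3)).to_comp
  have hN : Computable N := (pow_two_prim.comp (Primrec.nat_mul.comp
    (Primrec.nat_add.comp Primrec.id (Primrec.const 4)) (Primrec.const d))).to_comp
  have hgO : CompIn {(g : ℕ →. ℕ)} g := CompIn.oracle (Set.mem_singleton _)
  have key : ∀ s, s ≤ T → ∃ R : ℕ → ℕ, Computable R ∧
      (∀ j, R j < 2 ^ 2 ^ ((2 ^ (j + 1)) ^ d + 2 * 2 ^ j + s)) ∧
      ∀ᶠ j in atTop, ((Finset.range (N j)).filter (fun m => J m = j ∧ P s (g m) = R j)).card *
        (2 ^ j) ^ s ≤ N j := by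
    intro s
    induction s with
    | zero =>
      intro _
      refine ⟨fun _ => 0, Computable.const 0, fun j => by positivity, Eventually.of_forall fun j => ?_⟩
      rw [pow_zero, mul_one]
      exact (Finset.card_filter_le _ _).trans (by simp)
    | succ s ih =>
      intro hs
      obtain ⟨R, hR, hRb, hRc⟩ := ih (by omega)
      obtain ⟨r, hr, hrf, hrc⟩ := step (f := fun n => 2 ^ 2 ^ n ^ d) hJ hN hno
        ((CompIn.of_prim (hPprim (s + 1))).comp hgO) hR
      refine ⟨fun j => Nat.pair (R j) (encode ((List.range (2 ^ j)).map fun i => r (2 ^ j + i))),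
        ?_, ?_, ?_⟩
      · exact (Primrec₂.natPair.to_comp).comp hR (vec_computable hr)
      · intro j
        have h1 : encode ((List.range (2 ^ j)).map fun i => r (2 ^ j + i)) <
            2 ^ 2 ^ ((2 ^ (j + 1)) ^ d + 2 * 2 ^ j) := by
          have := encode_bound (x := (2 ^ (j + 1)) ^ d)
            ((List.range (2 ^ j)).map fun i => r (2 ^ j + i)) (by
              intro a ha
              rw [List.mem_map] at ha
              obtain ⟨i, hi, rfl⟩ := ha
              rw [List.mem_range] at hi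
              refine lt_of_lt_of_le (hrf _) (two_two_mono (Nat.pow_le_pow_left ?_ d))
              rw [pow_succ]; omega)
          simpa using this
        have h2 : encode ((List.range (2 ^ j)).map fun i => r (2 ^ j + i)) <
            2 ^ 2 ^ ((2 ^ (j + 1)) ^ d + 2 * 2 ^ j + s) :=
          lt_of_lt_of_le h1 (two_two_mono (Nat.le_add_right _ _))
        exact pair_bound (hRb j) h2
      · filter_upwards [hRc, hrc] with j h1 h2
        have h3 : ((Finset.range (N j)).filter (fun m => J m = j ∧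
            (Nat.unpair (P (s + 1) (g m))).1 = R j)) =
            ((Finset.range (N j)).filter (fun m => J m = j ∧ P s (g m) = R j)) := by
          refine Finset.filter_congr fun m _ => ?_
          rw [hPstep s (by omega)]
        rw [h3] at h2
        calc _ = ((Finset.range (N j)).filter (fun m => J m = j ∧ P (s + 1) (g m) = Nat.pair (R j)
              (encode ((List.range (2 ^ j)).map fun i => r (2 ^ j + i))))).card * 2 ^ j *
              (2 ^ j) ^ s := by rw [pow_succ]; ring
          _ ≤ _ := Nat.mul_le_mul_right _ h2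
          _ ≤ _ := h1
  obtain ⟨R, hR, hRb, hRc⟩ := key T le_rfl
  obtain ⟨j₀, hj₀⟩ := Filter.eventually_atTop.1 hRc
  -- the computable function that is missed
  let ρ : ℕ → ℕ := fun m => if R (J m) < 2 ^ 2 ^ m then R (J m) else 0
  have hρ : Computable ρ := by
    have hF : Primrec₂ (fun (a m : ℕ) => if a < 2 ^ 2 ^ m then a else 0) := by
      refine Primrec.ite ?_ Primrec.fst (Primrec.const 0)
      exact Primrec.nat_lt.comp Primrec.fst (pow_two_prim.comp (pow_two_prim.comp Primrec.snd))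
    exact hF.to_comp.comp (hR.comp hJ) Computable.id
  have hρb : ∀ m, ρ m < 2 ^ 2 ^ m := by
    intro m
    by_cases h : R (J m) < 2 ^ 2 ^ m
    · simp only [ρ, if_pos h]; exact h
    · simp only [ρ, if_neg h]; positivity
  have hfreq := hg ρ hρ hρb
  have hlarge : ∀ᶠ m in atTop, j₀ + T + 1 ≤ J m := by
    filter_upwards [eventually_ge_atTop (2 ^ ((j₀ + T + 1 + 3) * d))] with m hm
    have h1 : (j₀ + T + 1 + 3) * d ≤ Nat.log 2 m := Nat.le_log_of_pow_le (by norm_num) hm
    have h2 : j₀ + T + 1 + 3 ≤ Nat.log 2 m / d := (Nat.le_div_iff_mul_le (by omega)).2 h1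
    show j₀ + T + 1 ≤ Nat.log 2 m / d - 3
    omega
  obtain ⟨m, hm1, hm2⟩ := (hfreq.and_eventually hlarge).exists
  set j := J m with hj
  have hm0 : m ≠ 0 := by
    rintro rfl
    have : J 0 = 0 := by simp [J]
    omega
  have hlog : Nat.log 2 m / d = j + 3 := by
    have : j = Nat.log 2 m / d - 3 := hj
    omega
  have hlow : 2 ^ ((j + 3) * d) ≤ m := by
    have h1 : (j + 3) * d ≤ Nat.log 2 m := (Nat.le_div_iff_mul_le (by omega)).1 hlog.ge
    exact (Nat.pow_le_pow_right (by norm_num) h1).trans (Nat.pow_log_le_self 2 hm0)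
  have hhigh : m < N j := by
    have h1 : Nat.log 2 m < (j + 4) * d := (Nat.div_lt_iff_lt_mul (by omega)).1 (by omega)
    exact Nat.lt_pow_of_log_lt (by norm_num) h1
  have hexp : (2 ^ (j + 1)) ^ d + 2 * 2 ^ j + T ≤ 2 ^ ((j + 3) * d) := by
    have e1 : (2 ^ (j + 1)) ^ d = 2 ^ ((j + 1) * d) := by rw [← pow_mul]
    have e2 : 2 * 2 ^ j ≤ 2 ^ ((j + 1) * d) := by
      rw [← pow_succ']
      exact Nat.pow_le_pow_right (by norm_num) (by nlinarith)
    have e3 : T ≤ 2 ^ ((j + 1) * d) := by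
      have : j + 1 ≤ (j + 1) * d := by nlinarith
      have h5 : (j + 1) * d < 2 ^ ((j + 1) * d) := Nat.lt_two_pow_self
      omega
    have e4 : 2 ^ ((j + 3) * d) = 2 ^ ((j + 1) * d) * 2 ^ (2 * d) := by
      rw [← pow_add]; congr 1; ring
    have e5 : 4 ≤ 2 ^ (2 * d) := by
      calc 4 = 2 ^ 2 := by norm_num
        _ ≤ _ := Nat.pow_le_pow_right (by norm_num) (by omega)
    rw [e4, e1]
    nlinarith [Nat.zero_le (2 ^ ((j + 1) * d))]
  have hRm : R j < 2 ^ 2 ^ m :=
    lt_of_lt_of_le (hRb j) (two_two_mono (hexp.trans hlow))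
  have hgm : g m = R j := by
    rw [hm1]
    simp only [ρ, ← hj, if_pos hRm]
  have hcard := hj₀ j (by omega)
  have hpos : 0 < ((Finset.range (N j)).filter (fun m => J m = j ∧ P T (g m) = R j)).card := by
    rw [Finset.card_pos]
    refine ⟨m, ?_⟩
    rw [Finset.mem_filter, Finset.mem_range]
    exact ⟨hhigh, hj.symm, by rw [hPT, hgm]⟩
  have h1 : (2 ^ j) ^ T ≤ N j := by
    calc (2 ^ j) ^ T = 1 * (2 ^ j) ^ T := (one_mul _).symm
      _ ≤ _ := Nat.mul_le_mul_right _ hpos
      _ ≤ _ := hcard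
  have h2 : N j < (2 ^ j) ^ T := by
    rw [← pow_mul]
    refine Nat.pow_lt_pow_right (by norm_num) ?_
    rw [hT]
    nlinarith
  omega

/-- For every `d ≥ 2` the function `f(n) = 2^(2^(n^d))` is computable, eventually exceeds
`2^(a^n)` for every `a`, and `IOE(2^(2^n))` and `IOE(f)` are Muchnik equivalent. -/
theorem result (d : ℕ) (hd : 2 ≤ d) :
    Computable (fun n : ℕ => 2 ^ (2 ^ (n ^ d))) ∧
    (∀ a : ℕ, ∀ᶠ n in atTop, 2 ^ (2 ^ (n ^ d)) > 2 ^ (a ^ n)) ∧
    MuchnikLe (IOE fun n => 2 ^ (2 ^ n)) (IOE fun n => 2 ^ (2 ^ (n ^ d))) ∧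
    MuchnikLe (IOE fun n => 2 ^ (2 ^ (n ^ d))) (IOE fun n => 2 ^ (2 ^ n)) := by
  refine ⟨target_computable d, growth hd, fun g hg => ⟨g, ?_, TuringReducible.refl _⟩,
    fun g hg => ?_⟩
  · intro r hr hrb
    refine hg r hr fun n => lt_of_lt_of_le (hrb n) (two_two_mono ?_)
    exact Nat.le_self_pow (by omega) n
  · obtain ⟨ψ, h1, h2⟩ := main (by omega : 1 ≤ d) hg
    exact ⟨ψ, h2, turing_of_compIn h1⟩

end Pool.Agent.Results.MP_2c929a_lc.PolynomialExponents
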